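import Pool.Agent.H14.TOW.Targets

/-! The field of the cone. -/

set_option autoImplicit false

namespace Pool.Agent.H59.TOW

open Polynomial Pool.Agent.H14.TOW

section

variable {k K : Type} [Field k] [Field K] [Algebra k K]

/-- the map on polynomials -/
noncomputable def ph (σ : K →ₐ[k] K) (lam : K) (d : ℕ) : K[X] →+* K[X] :=
  eval₂RingHom (C.comp (σ : K →+* K)) (C lam * X ^ d)

theorem ph_eq (σ : K →ₐ[k] K) (lam : K) (d : ℕ) (f : K[X]) :
    ph σ lam d f = expand K d ((f.map (σ : K →+* K)).comp (C lam * X)) := by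
  have h1 : ph σ lam d f = (f.map (σ : K →+* K)).comp (C lam * X ^ d) := by
    rw [comp, eval₂_map]
    rfl
  rw [h1, expand_eq_comp_X_pow, comp_assoc]
  simp

theorem ph_coeff (σ : K →ₐ[k] K) (lam : K) {d : ℕ} (hd : 1 ≤ d) (f : K[X]) (m : ℕ) :
    (ph σ lam d f).coeff m = if d ∣ m then σ (f.coeff (m / d)) * lam ^ (m / d) else 0 := by
  rw [ph_eq, coeff_expand hd]
  split_ifs
  · rw [comp_C_mul_X_coeff, coeff_map]
    rfl
  · rfl

theorem ph_inj (σ : K →ₐ[k] K) {lam : K} {d : ℕ} (hl : lam ≠ 0) (hd : 1 ≤ d) :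
    Function.Injective (ph σ lam d) := by
  rw [injective_iff_map_eq_zero]
  intro f hf
  ext n
  have h1 := ph_coeff σ lam hd f (d * n)
  rw [hf, if_pos (dvd_mul_right d n), Nat.mul_div_cancel_left n hd, coeff_zero] at h1
  have h2 := (mul_eq_zero.1 h1.symm).resolve_right (pow_ne_zero n hl)
  rw [coeff_zero]
  exact (map_eq_zero σ).1 h2

/-- the map on rational functions -/
noncomputable def Ph (σ : K →ₐ[k] K) {lam : K} {d : ℕ} (hl : lam ≠ 0) (hd : 1 ≤ d) :
    RatFunc K →ₐ[k] RatFunc K :=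
  { (IsFractionRing.lift (A := K[X]) (K := RatFunc K) (L := RatFunc K)
      (g := (algebraMap K[X] (RatFunc K)).comp (ph σ lam d))
      ((RatFunc.algebraMap_injective K).comp (ph_inj σ hl hd))) with
    commutes' := fun r => by
      have e : algebraMap k (RatFunc K) r = algebraMap K[X] (RatFunc K) (C (algebraMap k K r)) := by
        rw [IsScalarTower.algebraMap_apply k K[X] (RatFunc K)]
        rfl
      rw [e]
      simp only [RingHom.toMonoidHom_eq_coe, OneHom.toFun_eq_coe, MonoidHom.toOneHom_coe,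
        MonoidHom.coe_coe, IsFractionRing.lift_algebraMap, RingHom.comp_apply]
      congr 1
      simp [ph] }

theorem Ph_algebraMap (σ : K →ₐ[k] K) {lam : K} {d : ℕ} (hl : lam ≠ 0) (hd : 1 ≤ d) (f : K[X]) :
    Ph σ hl hd (algebraMap K[X] (RatFunc K) f) = algebraMap K[X] (RatFunc K) (ph σ lam d f) :=
  IsFractionRing.lift_algebraMap (A := K[X]) (K := RatFunc K) (L := RatFunc K)
    (g := (algebraMap K[X] (RatFunc K)).comp (ph σ lam d))
    ((RatFunc.algebraMap_injective K).comp (ph_inj σ hl hd)) f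

theorem ind_poly (σ : K →ₐ[k] K) {lam : K} {d : ℕ} (hl : lam ≠ 0) (hd : 1 ≤ d) {e : ℕ}
    (β : Fin e → K) (hβ : Ind σ β) (f : Fin e × Fin d → K[X])
    (h : ∑ i, C (β i.1) * X ^ (i.2 : ℕ) * ph σ lam d (f i) = 0) : ∀ i, f i = 0 := by
  rintro ⟨i0, l0⟩
  ext s
  rw [coeff_zero]
  have h1 := congrArg (fun g => g.coeff ((l0 : ℕ) + d * s)) h
  simp only [finsetSum_coeff, coeff_zero, mul_assoc, coeff_C_mul, coeff_X_pow_mul'] at h1
  rw [Fintype.sum_prod_type] at h1
  have h2 : ∀ i : Fin e, ∑ l : Fin d, β i * (if (l : ℕ) ≤ (l0 : ℕ) + d * s then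
      (ph σ lam d (f (i, l))).coeff ((l0 : ℕ) + d * s - l) else 0) =
      β i * σ ((f (i, l0)).coeff s) * lam ^ s := by
    intro i
    rw [Finset.sum_eq_single l0]
    · rw [if_pos (Nat.le_add_right _ _), Nat.add_sub_cancel_left, ph_coeff σ lam hd,
        if_pos (dvd_mul_right d s), Nat.mul_div_cancel_left s hd, mul_assoc]
    · intro l _ hne
      split_ifs with hle
      · rw [ph_coeff σ lam hd, if_neg, mul_zero]
        rintro ⟨t, ht⟩
        apply hne
        have e1 : (l0 : ℕ) + d * s = l + d * t := by omega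
        have e2 := congrArg (fun n => n % d) e1
        simp only [Nat.add_mul_mod_self_left, Nat.mod_eq_of_lt l0.2, Nat.mod_eq_of_lt l.2] at e2
        exact Fin.ext e2.symm
      · rw [mul_zero]
    · intro h
      exact absurd (Finset.mem_univ _) h
  simp only [h2] at h1
  rw [← Finset.sum_mul] at h1
  have h3 := (mul_eq_zero.1 h1).resolve_right (pow_ne_zero s hl)
  exact hβ _ h3 i0

theorem ind_rat (σ : K →ₐ[k] K) {lam : K} {d : ℕ} (hl : lam ≠ 0) (hd : 1 ≤ d) {e : ℕ}
    (β : Fin e → K) (hβ : Ind σ β) :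
    Ind (Ph σ hl hd) (fun i : Fin e × Fin d => RatFunc.C (β i.1) * RatFunc.X ^ (i.2 : ℕ)) := by
  intro c hc
  obtain ⟨b, hb⟩ := IsLocalization.exist_integer_multiples_of_finite
    (nonZeroDivisors K[X]) (S := RatFunc K) c
  choose f hf using hb
  have hb0 : algebraMap K[X] (RatFunc K) (b : K[X]) ≠ 0 := by
    rw [map_ne_zero_iff _ (RatFunc.algebraMap_injective K)]
    exact nonZeroDivisors.coe_ne_zero b
  have hf' : ∀ i, algebraMap K[X] (RatFunc K) (f i) = algebraMap K[X] (RatFunc K) b * c i := by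
    intro i
    rw [hf i, Algebra.smul_def]
  have h1 : ∑ i : Fin e × Fin d, C (β i.1) * X ^ (i.2 : ℕ) * ph σ lam d (f i) = 0 := by
    apply RatFunc.algebraMap_injective K
    rw [map_sum, map_zero]
    have h2 : ∀ i : Fin e × Fin d, algebraMap K[X] (RatFunc K)
        (C (β i.1) * X ^ (i.2 : ℕ) * ph σ lam d (f i)) =
        Ph σ hl hd (algebraMap K[X] (RatFunc K) b) *
          (RatFunc.C (β i.1) * RatFunc.X ^ (i.2 : ℕ) * Ph σ hl hd (c i)) := by
      intro i
      rw [map_mul, map_mul, map_pow, ← Ph_algebraMap σ hl hd, hf' i, map_mul, RatFunc.algebraMap_C,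
        RatFunc.algebraMap_X]
      ring
    simp only [h2]
    rw [← Finset.mul_sum, hc, mul_zero]
  intro i
  have h3 := ind_poly σ hl hd β hβ f h1 i
  have h4 := hf' i
  rw [h3, map_zero] at h4
  exact (mul_eq_zero.1 h4.symm).resolve_left hb0

/-- combinations as members of a span -/
theorem cmb_iff {F : Type} [Field F] [Algebra k F] (τ : F →ₐ[k] F) {ι : Type} [Fintype ι]
    (β : ι → F) (a : F) :
    Cmb τ β a ↔ a ∈ Submodule.span (τ : F →+* F).fieldRange (Set.range β) := by
  rw [Submodule.mem_span_range_iff_exists_fun]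
  constructor
  · rintro ⟨c, hc⟩
    refine ⟨fun i => ⟨τ (c i), ⟨c i, rfl⟩⟩, ?_⟩
    rw [hc]
    refine Finset.sum_congr rfl fun i _ => ?_
    rw [Subfield.smul_def, smul_eq_mul, mul_comm]
  · rintro ⟨c, hc⟩
    choose g hg using fun i => (c i).2
    refine ⟨g, ?_⟩
    rw [← hc]
    refine Finset.sum_congr rfl fun i _ => ?_
    rw [Subfield.smul_def, smul_eq_mul, mul_comm, ← hg i]
    rfl

theorem spn_rat (σ : K →ₐ[k] K) {lam : K} {d : ℕ} (hl : lam ≠ 0) (hd : 1 ≤ d) {e : ℕ}
    (β : Fin e → K) (hβ : Spn σ β) :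
    Spn (Ph σ hl hd) (fun i : Fin e × Fin d => RatFunc.C (β i.1) * RatFunc.X ^ (i.2 : ℕ)) := by
  intro r
  rw [cmb_iff]
  set B : Fin e × Fin d → RatFunc K := fun i => RatFunc.C (β i.1) * RatFunc.X ^ (i.2 : ℕ) with hB
  set F0 := (Ph σ hl hd : RatFunc K →+* RatFunc K).fieldRange with hF0
  set M := Submodule.span F0 (Set.range B) with hM
  have hsm : ∀ (x m : RatFunc K), m ∈ M → Ph σ hl hd x * m ∈ M := fun x m hm =>
    M.smul_mem (⟨Ph σ hl hd x, ⟨x, rfl⟩⟩ : F0) hm
  -- monomials
  have hmon : ∀ (a : K) (n : ℕ), RatFunc.C a * RatFunc.X ^ n ∈ M := by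
    intro a n
    obtain ⟨c, hc⟩ := hβ (a * (lam ^ (n / d))⁻¹)
    have e1 : RatFunc.C a * (RatFunc.X : RatFunc K) ^ n = ∑ i : Fin e,
        Ph σ hl hd (RatFunc.C (c i) * RatFunc.X ^ (n / d)) *
          B (i, ⟨n % d, Nat.mod_lt _ hd⟩) := by
      have e2 : ∀ i : Fin e, Ph σ hl hd (RatFunc.C (c i) * RatFunc.X ^ (n / d)) =
          RatFunc.C (σ (c i)) * (RatFunc.C lam * RatFunc.X ^ d) ^ (n / d) := by
        intro i
        rw [map_mul, map_pow, ← RatFunc.algebraMap_C, ← RatFunc.algebraMap_X, Ph_algebraMap,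
          Ph_algebraMap]
        simp [ph]
      have hlam : RatFunc.C lam ≠ (0 : RatFunc K) := by
        rw [Ne, map_eq_zero]
        exact hl
      have e3 : a = (∑ i, β i * σ (c i)) * lam ^ (n / d) := by
        rw [← hc, mul_assoc, inv_mul_cancel₀ (pow_ne_zero _ hl), mul_one]
      have e4 : (RatFunc.X : RatFunc K) ^ n = (RatFunc.X ^ d) ^ (n / d) * RatFunc.X ^ (n % d) := by
        rw [← pow_mul, ← pow_add, Nat.div_add_mod]
      conv_lhs => rw [e3, e4]
      rw [map_mul, map_sum, map_pow, Finset.sum_mul, Finset.sum_mul]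
      refine Finset.sum_congr rfl fun i _ => ?_
      rw [e2 i, hB]
      simp only [map_mul, mul_pow]
      ring
    rw [e1]
    exact M.sum_mem fun i _ => hsm _ _ (Submodule.subset_span ⟨_, rfl⟩)
  have hpol : ∀ f : K[X], algebraMap K[X] (RatFunc K) f ∈ M := by
    intro f
    rw [f.as_sum_range_C_mul_X_pow, map_sum]
    refine M.sum_mem fun n _ => ?_
    rw [map_mul, map_pow, RatFunc.algebraMap_C, RatFunc.algebraMap_X]
    exact hmon _ _
  -- multiplication by a polynomial
  have hmul : ∀ (q : K[X]) (m : RatFunc K), m ∈ M → algebraMap K[X] (RatFunc K) q * m ∈ M := by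
    intro q m hm
    induction hm using Submodule.span_induction with
    | mem x hx =>
      obtain ⟨i, rfl⟩ := hx
      have e5 : algebraMap K[X] (RatFunc K) q * B i =
          algebraMap K[X] (RatFunc K) (q * (C (β i.1) * X ^ (i.2 : ℕ))) := by
        rw [map_mul, map_mul, map_pow, RatFunc.algebraMap_C, RatFunc.algebraMap_X]
      rw [e5]
      exact hpol _
    | zero =>
      rw [mul_zero]
      exact M.zero_mem
    | add x y _ _ hx hy =>
      rw [mul_add]
      exact M.add_mem hx hy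
    | smul a x _ hx =>
      rw [mul_smul_comm]
      exact M.smul_mem a hx
  obtain ⟨p, q, hq, hpq⟩ := IsFractionRing.div_surjective (A := K[X]) r
  have hq0 : algebraMap K[X] (RatFunc K) q ≠ 0 := by
    rw [map_ne_zero_iff _ (RatFunc.algebraMap_injective K)]
    exact nonZeroDivisors.ne_zero hq
  let g : M →ₗ[F0] M :=
    { toFun := fun m => ⟨algebraMap K[X] (RatFunc K) q * m, hmul q m m.2⟩
      map_add' := fun x y => Subtype.ext (mul_add _ _ _)
      map_smul' := fun a x => Subtype.ext (mul_smul_comm _ _ _) }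
  have hfd : FiniteDimensional F0 M := FiniteDimensional.span_of_finite F0 (Set.finite_range B)
  have hg : Function.Injective g := by
    intro x y hxy
    have := congrArg Subtype.val hxy
    exact Subtype.ext (mul_left_cancel₀ hq0 this)
  obtain ⟨m, hm⟩ := (LinearMap.injective_iff_surjective.1 hg) ⟨_, hpol p⟩
  have hm' : algebraMap K[X] (RatFunc K) q * m = algebraMap K[X] (RatFunc K) p :=
    congrArg Subtype.val hm
  have e6 : r = m := by
    rw [← hpq, ← hm', mul_div_cancel_left₀ _ hq0]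
  rw [e6]
  exact m.2

theorem pf_CON : T_CON := by
  intro k K _ _ _ σ lam d hl hd
  refine ⟨Ph σ hl hd, ?_, ?_, fun e β => ⟨ind_rat σ hl hd β, spn_rat σ hl hd β⟩⟩
  · intro a
    rw [← RatFunc.algebraMap_C, Ph_algebraMap, ← RatFunc.algebraMap_C]
    simp [ph]
  · rw [← RatFunc.algebraMap_X, Ph_algebraMap]
    simp [ph]

end

end Pool.Agent.H59.TOW
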