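import Pool.Agent.H14.TOW.TargetsM

/-!
# The place of a homogeneous prime ideal
-/

set_option autoImplicit false

namespace Pool.Agent.H59.TOW

open MvPolynomial
open Pool.Agent.H12.ZD (pmap)
open Pool.Agent.H18.HIT Pool.Agent.H18.HX Pool.Agent.H18.VP Pool.Agent.H18.VZ Pool.Agent.H14.TOW

/-- values of a form at a multiple of a point -/
theorem ovp_scale {N : ℕ} {k K : Type} [Field k] [Field K] [Algebra k K] {q : Po N k} {t : ℕ}
    (hq : q.IsHomogeneous t) (h : K) (G : Fin N → K) :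
    aeval (fun i => h * G i) q = h ^ t * aeval G q := by
  rw [aeval_def, aeval_def, eval₂_eq', eval₂_eq', Finset.mul_sum]
  apply Finset.sum_congr rfl
  intro m hm
  have h1 : ∏ i, (h * G i) ^ m i = h ^ t * ∏ i, G i ^ m i := by
    rw [Finset.prod_congr rfl fun i _ => mul_pow h (G i) (m i), Finset.prod_mul_distrib,
      Finset.prod_pow_eq_pow_sum]
    congr 2
    have h2 := hq (mem_support_iff.mp hm)
    rw [Finsupp.weight_apply, Finsupp.sum_fintype _ _ (fun i => by simp)] at h2
    simpa using h2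
  rw [h1]
  ring

theorem pf_OVP : T_OVP := by
  intro k K _ _ _ σ n r d P F y V hV hM hHmi hPV hX hF
  -- the residue field
  let κ : Type := FractionRing (Po (n + 1 + 1) k ⧸ V)
  let ψ : Po (n + 1 + 1) k →ₐ[k] κ :=
    (IsScalarTower.toAlgHom k (Po (n + 1 + 1) k ⧸ V) κ).comp (Ideal.Quotient.mkₐ k V)
  have hψ : ∀ c, ψ c = algebraMap (Po (n + 1 + 1) k ⧸ V) κ (Ideal.Quotient.mk V c) := fun c => rfl
  have hψ0 : ∀ c, ψ c = 0 ↔ c ∈ V := by
    intro c
    rw [hψ, ← Ideal.Quotient.eq_zero_iff_mem]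
    constructor
    · intro h
      exact (IsFractionRing.injective (Po (n + 1 + 1) k ⧸ V) κ) (by rw [h, map_zero])
    · intro h
      rw [h, map_zero]
  -- the induced map
  let μ : (Po (n + 1 + 1) k ⧸ V) →ₐ[k] (Po (n + 1 + 1) k ⧸ V) :=
    Ideal.Quotient.liftₐ V ((Ideal.Quotient.mkₐ k V).comp (aeval F)) (by
      intro c hc
      have : aeval F c ∈ V := (hF c).mpr hc
      exact (Ideal.Quotient.eq_zero_iff_mem).mpr this)
  have hμ : ∀ c, μ (Ideal.Quotient.mk V c) = Ideal.Quotient.mk V (aeval F c) := fun c => rfl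
  have hμinj : Function.Injective μ := by
    rw [injective_iff_map_eq_zero]
    intro a
    obtain ⟨c, rfl⟩ := Ideal.Quotient.mk_surjective a
    intro h
    rw [hμ, Ideal.Quotient.eq_zero_iff_mem] at h
    exact (Ideal.Quotient.eq_zero_iff_mem).mpr ((hF c).mp h)
  have hμ2 : Function.Injective ((IsScalarTower.toAlgHom k (Po (n + 1 + 1) k ⧸ V) κ).comp μ) := by
    intro a b hab
    apply hμinj
    exact (IsFractionRing.injective (Po (n + 1 + 1) k ⧸ V) κ) hab
  let τ : κ →ₐ[k] κ := IsFractionRing.liftAlgHom hμ2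
  have hτ : ∀ c, τ (ψ c) = ψ (aeval F c) := by
    intro c
    rw [hψ, hψ, ← hμ]
    exact IsFractionRing.lift_algebraMap hμ2 _
  have hP : ∀ (m : ℕ) (c : Po (n + 1 + 1) k), c.IsHomogeneous m → aeval y c = 0 → c ∈ V := by
    intro m c hc h0
    exact V.mem_of_dvd ((hM.ker m c hc).mp h0) hPV
  have h1V : (1 : Po (n + 1 + 1) k) ∉ V := fun h => hV.ne_top ((Ideal.eq_top_iff_one V).mpr h)
  have hmulV : ∀ a b : Po (n + 1 + 1) k, a ∉ V → b ∉ V → a * b ∉ V := by
    intro a b ha hb h
    rcases hV.mem_or_mem h with h | h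
    · exact ha h
    · exact hb h
  -- the key lemma
  have key : ∀ (a : K) (m : ℕ) (A B : Po (n + 1 + 1) k) (m' : ℕ) (A' B' : Po (n + 1 + 1) k),
      A.IsHomogeneous m → B.IsHomogeneous m → B ∉ V → a * aeval y B = aeval y A →
      A'.IsHomogeneous m' → B'.IsHomogeneous m' → B' ∉ V → a * aeval y B' = aeval y A' →
      ψ A / ψ B = ψ A' / ψ B' := by
    intro a m A B m' A' B' hA hB hBV h hA' hB' hB'V h'
    have hh : (A * B' - A' * B).IsHomogeneous (m + m') := by
      apply IsHomogeneous.sub (hA.mul hB')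
      rw [add_comm m m']
      exact hA'.mul hB
    have h0 : aeval y (A * B' - A' * B) = 0 := by
      rw [map_sub, map_mul, map_mul, ← h, ← h']
      ring
    have h2 := (hψ0 _).mpr (hP _ _ hh h0)
    rw [map_sub, map_mul, map_mul, sub_eq_zero] at h2
    have hB0 : ψ B ≠ 0 := fun h => hBV ((hψ0 _).mp h)
    have hB'0 : ψ B' ≠ 0 := fun h => hB'V ((hψ0 _).mp h)
    rw [div_eq_div_iff hB0 hB'0]
    exact h2
  -- the local ring
  let O : Subalgebra k K :=
    { carrier := {a | ∃ (m : ℕ) (A B : Po (n + 1 + 1) k), A.IsHomogeneous m ∧ B.IsHomogeneous m ∧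
        B ∉ V ∧ a * aeval y B = aeval y A}
      mul_mem' := by
        rintro a b ⟨m, A, B, hA, hB, hBV, h⟩ ⟨m', A', B', hA', hB', hBV', h'⟩
        refine ⟨m + m', A * A', B * B', hA.mul hA', hB.mul hB', hmulV _ _ hBV hBV', ?_⟩
        rw [map_mul, map_mul, ← h, ← h']
        ring
      add_mem' := by
        rintro a b ⟨m, A, B, hA, hB, hBV, h⟩ ⟨m', A', B', hA', hB', hBV', h'⟩
        refine ⟨m + m', A * B' + A' * B, B * B', ?_, hB.mul hB', hmulV _ _ hBV hBV', ?_⟩
        · apply IsHomogeneous.add (hA.mul hB')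
          rw [add_comm m m']
          exact hA'.mul hB
        · rw [map_add, map_mul, map_mul, map_mul, ← h, ← h']
          ring
      algebraMap_mem' := by
        intro c
        refine ⟨0, C c, 1, isHomogeneous_C _ _, isHomogeneous_one _ _, h1V, ?_⟩
        rw [map_one, mul_one]
        exact (aeval_C y c).symm }
  have hO : ∀ a, a ∈ O ↔ ∃ (m : ℕ) (A B : Po (n + 1 + 1) k), A.IsHomogeneous m ∧
      B.IsHomogeneous m ∧ B ∉ V ∧ a * aeval y B = aeval y A := fun a => Iff.rfl
  have hval : ∀ a : K, ∃ v : κ, ∀ (m : ℕ) (A B : Po (n + 1 + 1) k), A.IsHomogeneous m →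
      B.IsHomogeneous m → B ∉ V → a * aeval y B = aeval y A → v = ψ A / ψ B := by
    intro a
    by_cases h : a ∈ O
    · obtain ⟨m, A, B, hA, hB, hBV, h⟩ := h
      exact ⟨ψ A / ψ B, fun m' A' B' hA' hB' hBV' h' =>
        key a m A B m' A' B' hA hB hBV h hA' hB' hBV' h'⟩
    · exact ⟨0, fun m A B hA hB hBV h' => absurd ⟨m, A, B, hA, hB, hBV, h'⟩ h⟩
  choose val hval using hval
  have vmul : ∀ a ∈ O, ∀ b ∈ O, val (a * b) = val a * val b := by
    rintro a ⟨m, A, B, hA, hB, hBV, h⟩ b ⟨m', A', B', hA', hB', hBV', h'⟩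
    rw [hval a m A B hA hB hBV h, hval b m' A' B' hA' hB' hBV' h',
      hval (a * b) (m + m') (A * A') (B * B') (hA.mul hA') (hB.mul hB') (hmulV _ _ hBV hBV')
        (by rw [map_mul, map_mul, ← h, ← h']; ring), map_mul, map_mul, div_mul_div_comm]
  have vadd : ∀ a ∈ O, ∀ b ∈ O, val (a + b) = val a + val b := by
    rintro a ⟨m, A, B, hA, hB, hBV, h⟩ b ⟨m', A', B', hA', hB', hBV', h'⟩
    have hB0 : ψ B ≠ 0 := fun h => hBV ((hψ0 _).mp h)
    have hB'0 : ψ B' ≠ 0 := fun h => hBV' ((hψ0 _).mp h)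
    rw [hval a m A B hA hB hBV h, hval b m' A' B' hA' hB' hBV' h',
      hval (a + b) (m + m') (A * B' + A' * B) (B * B')
        (IsHomogeneous.add (hA.mul hB') (by rw [add_comm m m']; exact hA'.mul hB)) (hB.mul hB')
        (hmulV _ _ hBV hBV')
        (by rw [map_add, map_mul, map_mul, map_mul, ← h, ← h']; ring), map_add, map_mul, map_mul,
        map_mul, div_add_div _ _ hB0 hB'0]
    congr 1
    ring
  have valg : ∀ c : k, val (algebraMap k K c) = algebraMap k κ c := by
    intro c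
    rw [hval (algebraMap k K c) 0 (C c) 1 (isHomogeneous_C _ _) (isHomogeneous_one _ _) h1V
      (by rw [map_one, mul_one]; exact (aeval_C y c).symm), map_one, div_one]
    exact ψ.commutes c
  let ρ : O →ₐ[k] κ :=
    { toFun := fun a => val a.1
      map_one' := by
        have := valg 1
        rw [map_one, map_one] at this
        exact this
      map_mul' := fun a b => vmul a.1 a.2 b.1 b.2
      map_zero' := by
        have := valg 0
        rw [map_zero, map_zero] at this
        exact this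
      map_add' := fun a b => vadd a.1 a.2 b.1 b.2
      commutes' := fun c => valg c }
  have hρ : ∀ a ∈ O, rv O ρ a = val a := by
    intro a ha
    unfold rv
    rw [dif_pos ha]
    rfl
  have hF1 : F (Fin.succ 0) ∉ V := by
    intro h
    apply hX
    rw [← hF]
    rw [aeval_X]
    exact h
  refine ⟨κ, inferInstance, inferInstance, ψ, τ, O, ρ, hψ0, hτ, ?_, ⟨?_, ?_⟩, ?_⟩
  · intro a
    obtain ⟨x, z, hz, rfl⟩ := IsFractionRing.div_surjective (A := Po (n + 1 + 1) k ⧸ V) a
    obtain ⟨A, rfl⟩ := Ideal.Quotient.mk_surjective x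
    obtain ⟨B, rfl⟩ := Ideal.Quotient.mk_surjective z
    have hB : ψ B ≠ 0 := by
      intro h
      rw [hψ0, ← Ideal.Quotient.eq_zero_iff_mem] at h
      exact nonZeroDivisors.ne_zero hz h
    refine ⟨A, B, hB, ?_⟩
    rw [← hψ, ← hψ, div_mul_cancel₀ _ hB]
  · intro a ha hne
    rw [hρ a ha] at hne
    obtain ⟨m, A, B, hA, hB, hBV, h⟩ := ha
    rw [hval a m A B hA hB hBV h] at hne
    have hA0 : ψ A ≠ 0 := by
      intro h0
      rw [h0, zero_div] at hne
      exact hne rfl
    have hAV : A ∉ V := fun h => hA0 ((hψ0 _).mpr h)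
    have ha0 : a ≠ 0 := by
      intro h0
      rw [h0, zero_mul] at h
      exact hAV (hP _ _ hA h.symm)
    refine ⟨m, B, A, hB, hA, hAV, ?_⟩
    rw [← h, ← mul_assoc, inv_mul_cancel₀ ha0, one_mul]
  · intro a ha
    have ha' := ha
    obtain ⟨m, A, B, hA, hB, hBV, h⟩ := ha
    have tr : ∀ c : Po (n + 1 + 1) k, c.IsHomogeneous m →
        aeval y (aeval F c) = aeval y (F (Fin.succ 0)) ^ m * σ (aeval y c) := by
      intro c hc
      have hf : (fun i => aeval y (F i)) = fun i => aeval y (F (Fin.succ 0)) * σ (y i) :=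
        funext fun i => hM.map i
      rw [comp_aeval_apply, comp_aeval_apply, ← ovp_scale hc, hf]
    have h2 : σ a * aeval y (aeval F B) = aeval y (aeval F A) := by
      rw [tr B hB, tr A hA, ← h, map_mul]
      ring
    have hAh : (aeval F A).IsHomogeneous (d * m) := IsHomogeneous.aeval hA F hM.hom
    have hBh : (aeval F B).IsHomogeneous (d * m) := IsHomogeneous.aeval hB F hM.hom
    have hBn : aeval F B ∉ V := fun h => hBV ((hF _).mp h)
    have hσa : σ a ∈ O := ⟨d * m, aeval F A, aeval F B, hAh, hBh, hBn, h2⟩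
    refine ⟨hσa, ?_⟩
    rw [hρ a ha', hρ _ hσa, hval a m A B hA hB hBV h,
      hval (σ a) (d * m) _ _ hAh hBh hBn h2, map_div₀, hτ, hτ]
  · intro a m A B hA hB hBV h
    have ha : a ∈ O := ⟨m, A, B, hA, hB, hBV, h⟩
    refine ⟨ha, ?_⟩
    rw [hρ a ha, hval a m A B hA hB hBV h, div_mul_cancel₀]
    exact fun h => hBV ((hψ0 _).mp h)

end Pool.Agent.H59.TOW
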