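import Pool.Agent.H14.TOW.Targets

/-!
# Zariski dense orbits for towers of fibrations: the theorem for function fields
-/

set_option autoImplicit false

namespace Pool.Agent.H59.TOW

open MvPolynomial Pool.Agent.H14.TOW

/-- the restriction of an endomorphism to a stable subfield -/
noncomputable def tres {k K : Type} [Field k] [Field K] [Algebra k K] (σ : K →ₐ[k] K)
    (E : IntermediateField k K) (h : ∀ a ∈ E, σ a ∈ E) : E →ₐ[k] E :=
  (σ.comp E.val).codRestrict E.toSubalgebra (fun a => h a.1 a.2)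

theorem tres_coe {k K : Type} [Field k] [Field K] [Algebra k K] (σ : K →ₐ[k] K)
    (E : IntermediateField k K) (h : ∀ a ∈ E, σ a ∈ E) (a : E) :
    (tres σ E h a : K) = σ a := rfl

theorem pow_stable {k K : Type} [Field k] [Field K] [Algebra k K] (σ : K →ₐ[k] K)
    (E : IntermediateField k K) (h : ∀ a ∈ E, σ a ∈ E) (m : ℕ) : ∀ a ∈ E, (σ ^ m) a ∈ E := by
  induction m with
  | zero =>
    intro a ha
    simpa using ha
  | succ m ih =>
    intro a ha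
    rw [pow_succ, AlgHom.mul_apply]
    exact ih _ (h a ha)

theorem ind_sub {k κ : Type} [Field k] [Field κ] [Algebra k κ] (τ : κ →ₐ[k] κ) {ι ι' : Type}
    [Fintype ι] [Fintype ι'] (β : ι → κ) (f : ι' → ι) (hf : Function.Injective f)
    (h : Ind τ β) : Ind τ (fun i => β (f i)) := by
  intro c hc i
  have h1 : ∑ j, β j * τ (Function.extend f c (fun _ => (0 : κ)) j) = 0 := by
    refine Eq.trans ?_ hc
    symm
    apply Fintype.sum_of_injective f hf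
    · intro j hj
      rw [Function.extend_apply' c (fun _ => (0 : κ)) j (fun ⟨a, ha⟩ => hj ⟨a, ha⟩), map_zero,
        mul_zero]
    · intro i
      rw [hf.extend_apply]
  have h2 := h _ h1 (f i)
  rwa [hf.extend_apply] at h2

theorem stp_pow {k K : Type} [Field k] [Field K] [Algebra k K] (σ : K →ₐ[k] K)
    (E E' : IntermediateField k K) (h' : ∀ a ∈ E', σ a ∈ E') (m : ℕ) (hm : 1 ≤ m)
    (h : Stp σ E E') : Stp (σ ^ m) E E' := by
  refine ⟨h.1, ?_⟩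
  rcases h.2 with h1 | ⟨h1, a, ha, hn⟩
  · exact Or.inl h1
  · refine Or.inr ⟨h1, a, ha, fun hc => hn ?_⟩
    refine IntermediateField.adjoin.mono k _ _ ?_ hc
    apply Set.union_subset_union_right
    rintro _ ⟨c, hcc, rfl⟩
    obtain ⟨m, rfl⟩ : ∃ m', m = m' + 1 := ⟨m - 1, by omega⟩
    refine ⟨(σ ^ m) c, pow_stable σ E' h' m c hcc, ?_⟩
    rw [pow_succ', AlgHom.mul_apply]

theorem pf_TOW (k : Type) [Field k] [CharZero k] [IsAlgClosed k] (h1 : T_PNT k) (h2 : T_BSA)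
    (h3 : T_STA) (h4 : T_FBS) (h5 : T_FGI) (h6 : T_NIT) (h7 : T_LDJ) (h8 : T_EXT)
    (_h9 : T_LIN) : T_TOW k := by
  classical
  intro K _ _ σ L x b hx hb hN s E hEs hE0 hst hal hstp
  obtain ⟨m, hm, hp⟩ := h1 K σ L x b hx hb
  have hst' : ∀ t ≤ s, ∀ a ∈ E t, (σ ^ m) a ∈ E t := fun t ht =>
    pow_stable σ (E t) (hst t ht) m
  have hFg : Fgn k K := ⟨Finset.univ.image x, by
    rw [Finset.coe_image, Finset.coe_univ, Set.image_univ]
    exact hx⟩
  have hN' : Nfb (σ ^ m) := h6 k K σ hN m hm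
  obtain ⟨e₀, β₀, hβ₀I, hβ₀S⟩ := h4 k K (σ ^ m) hFg
  have hle : ∀ t : Fin (s + 1), (t : ℕ) ≤ s := fun t => Nat.lt_succ_iff.mp t.2
  have H : ∀ t : Fin (s + 1), ∃ (e : ℕ) (γ : Fin e → E t) (δ : Fin e₀ → K) (h : e ≤ e₀),
      Ind (tres (σ ^ m) (E t) (hst' t (hle t))) γ ∧ Spn (tres (σ ^ m) (E t) (hst' t (hle t))) γ ∧
      Ind (σ ^ m) δ ∧ Spn (σ ^ m) δ ∧ ∀ i, δ (Fin.castLE h i) = (γ i : K) := by
    intro t
    obtain ⟨e, γ, hI, hS⟩ := h4 k (E t) (tres (σ ^ m) (E t) (hst' t (hle t))) (h5 k K hFg (E t))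
    have hL := h7 k K (σ ^ m) (E t) (tres (σ ^ m) (E t) (hst' t (hle t)))
      (fun a => tres_coe _ _ _ a) (hal t (hle t)) ⟨e, γ, hS⟩ e γ hI
    obtain ⟨δ, h, hδI, hδS, hδ⟩ := h8 k K (σ ^ m) e₀ e β₀ (fun i => (γ i : K)) hβ₀I hβ₀S hL
    exact ⟨e, γ, δ, h, hI, hS, hδI, hδS, hδ⟩
  choose e γ δ h hI hS hδI hδS hδ using H
  obtain ⟨A0, hA0, hB0⟩ := h2 k K (σ ^ m) (E 0)
    (tres (σ ^ m) (E 0) (hst' 0 (Nat.zero_le s))) (fun a => tres_coe _ _ _ a) hFg hN' hE0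
    (e 0) (γ 0) (hI 0) (hS 0)
  have HA : ∀ t : Fin s, ∃ A : Finset K, (0 : K) ∉ A ∧
    ∀ (κ : Type) [Field κ] [Algebra k κ] (O : Subalgebra k K) (ρ : O →ₐ[k] κ) (τ : κ →ₐ[k] κ),
      Plc (σ ^ m) O ρ τ → (∀ a ∈ A, Uni O ρ a) →
      Ind τ (fun i => rv O ρ (γ t.succ i : K)) →
      (∀ a ∈ E t, a ≠ 0 → Uni O ρ a) → ∀ a ∈ E (t + 1), a ≠ 0 → Uni O ρ a := by
    intro t
    exact h3 k K (σ ^ m) (E t) (E (t + 1)) (tres (σ ^ m) (E t) (hst' t t.2.le))
      (tres (σ ^ m) (E (t + 1)) (hst' (t + 1) t.2)) (fun a => tres_coe _ _ _ a)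
      (fun a => tres_coe _ _ _ a) hFg hN' (hal t t.2.le)
      (stp_pow σ _ _ (hst (t + 1) t.2) m hm (hstp t t.2)) (e t.succ) (γ t.succ) (hI t.succ)
      (hS t.succ)
  choose A hA hB using HA
  obtain ⟨z, hz1, hz2, hz3, κ, fκ, aκ, O, ρ, τ, hPlc, hU, hInd, hlast⟩ :=
    hp e₀ (s + 1) δ hδI hδS (A0 ∪ Finset.univ.biUnion A) (by
      rw [Finset.mem_union, Finset.mem_biUnion]
      rintro (h | ⟨t, -, h⟩)
      · exact hA0 h
      · exact hA t h)
  have hres : ∀ t : Fin (s + 1), Ind τ (fun i => rv O ρ (γ t i : K)) := by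
    intro t
    have := ind_sub τ (fun i => rv O ρ (δ t i)) (Fin.castLE (h t)) (Fin.castLE_injective (h t))
      (hInd t)
    simpa only [hδ] using this
  have claim : ∀ t ≤ s, ∀ a ∈ E t, a ≠ 0 → Uni O ρ a := by
    intro t
    induction t with
    | zero =>
      intro _
      exact hB0 κ O ρ τ hPlc (fun a ha => hU a (Finset.mem_union_left _ ha)) (hres 0)
    | succ t ih =>
      intro ht
      exact hB ⟨t, ht⟩ κ O ρ τ hPlc
        (fun a ha => hU a (Finset.mem_union_right _ (Finset.mem_biUnion.mpr ⟨_, Finset.mem_univ _, ha⟩)))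
        (hres _) (ih (Nat.le_of_lt ht))
  refine ⟨z, hz1, hz2, hz3, hlast ?_⟩
  intro a ha
  exact claim s le_rfl a (by rw [hEs]; trivial) ha

end Pool.Agent.H59.TOW
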